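import Mathlib

open Set Cardinal Topology

namespace Pool.Agent.Results.MP_23f360_gt.SquareFails

/-- d-independent group: non-trivial, and every subgroup of size below the continuum meets some
countable dense subgroup trivially -/
def DIndep (G : Type) [AddCommGroup G] [TopologicalSpace G] : Prop :=
  Nontrivial G ∧ ∀ S : AddSubgroup G, #S < 𝔠 →
    ∃ D : AddSubgroup G, (D : Set G).Countable ∧ Dense (D : Set G) ∧ S ⊓ D = ⊥

lemma exists_rec {J C : Type} [LinearOrder J] [WellFoundedLT J] (P : J → Set C → C → Prop)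
    (Q : C → Prop) (h : ∀ (α : J) (S : Set C), #S < 𝔠 → (∀ c ∈ S, Q c) → ∃ c, Q c ∧ P α S c)
    (hJ : ∀ α : J, #(Iio α) < 𝔠) : ∃ f : J → C, ∀ α, Q (f α) ∧ P α (f '' Iio α) (f α) := by
  have h' : ∀ (α : J) (ih : ∀ β, β < α → {c // Q c}), ∃ c : {c // Q c},
      P α (range fun β : Iio α => (ih β β.2).1) c := by
    intro α ih
    obtain ⟨c, h1, h2⟩ := h α (range fun β : Iio α => (ih β β.2).1)
      (mk_range_le.trans_lt (hJ α)) (by rintro _ ⟨β, rfl⟩; exact (ih β β.2).2)
    exact ⟨⟨c, h1⟩, h2⟩
  choose Φ hΦ using h'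
  let g : J → {c // Q c} := WellFoundedLT.fix Φ
  refine ⟨fun α => (g α).1, fun α => ⟨(g α).2, ?_⟩⟩
  have h1 : g α = Φ α fun β _ => g β := WellFoundedLT.fix_eq Φ α
  have h2 := hΦ α fun β _ => g β
  rw [← h1] at h2
  rw [image_eq_range]
  exact h2

abbrev F : Type := ZMod 2
abbrev B : Type := ℕ ⊕ (ℝ × Fin 3 × ℕ)
abbrev G : Type := B →₀ F

/-- the character with the given values on the basis -/
noncomputable abbrev ev {ι : Type} (c : ι → F) : (ι →₀ F) →ₗ[F] F := Finsupp.linearCombination F c

/-- inclusion of the countable part -/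
noncomputable abbrev jj : (ℕ →₀ F) →ₗ[F] G := Finsupp.lmapDomain F F Sum.inl

lemma jj_inj : Function.Injective jj := Finsupp.mapDomain_injective Sum.inl_injective

lemma ev_jj (c : B → F) (s : ℕ →₀ F) : ev c (jj s) = ev (c ∘ Sum.inl) s :=
  Finsupp.linearCombination_mapDomain _ _ _

/-- countable support -/
def Q (c : B → F) : Prop := {β : ℝ | ∃ i n, c (Sum.inr (β, i, n)) ≠ 0}.Countable

lemma extend (σ : ℕ → F) (d : ℕ → G)
    (hd : Disjoint (Submodule.span F (range d)) (LinearMap.range jj)) :
    ∃ c : B → F, Q c ∧ c ∘ Sum.inl = σ ∧ ∀ n, ev c (d n) = 0 := by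
  classical
  obtain ⟨r, hr⟩ := LinearMap.exists_leftInverse_of_injective
    ((Submodule.span F (range d)).mkQ ∘ₗ jj) (by
      rw [LinearMap.ker_eq_bot']
      intro s hs
      have h1 : jj s ∈ Submodule.span F (range d) := by simpa using hs
      have h2 := (Submodule.disjoint_def.1 hd) _ h1 ⟨s, rfl⟩
      exact jj_inj (by rw [h2, map_zero]))
  let φ : G →ₗ[F] F := ev σ ∘ₗ r ∘ₗ (Submodule.span F (range d)).mkQ
  let S : Set B := range Sum.inl ∪ ⋃ n, (d n).support
  refine ⟨fun b => if b ∈ S then φ (Finsupp.single b 1) else 0, ?_, ?_, ?_⟩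
  · have hS : (⋃ n, ((d n).support : Set B)).Countable :=
      countable_iUnion fun n => (d n).support.countable_toSet
    refine (hS.image (Sum.elim (fun _ => (0 : ℝ)) (fun p => p.1))).mono ?_
    rintro β ⟨i, n, h⟩
    refine ⟨Sum.inr (β, i, n), ?_, rfl⟩
    by_contra hn
    apply h
    refine if_neg ?_
    rintro (⟨m, hm⟩ | h')
    · cases hm
    · exact hn h'
  · funext n
    have h1 : Sum.inl n ∈ S := Or.inl ⟨n, rfl⟩
    simp only [Function.comp, if_pos h1]
    have h2 : (Finsupp.single (Sum.inl n) 1 : G) = jj (Finsupp.single n 1) := by simp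
    have h3 := LinearMap.congr_fun hr (Finsupp.single n 1)
    simp only [LinearMap.comp_apply, LinearMap.id_apply] at h3
    simp only [φ, LinearMap.comp_apply, h2, h3]
    simp
  · intro n
    have h1 : φ (d n) = 0 := by
      have : (Submodule.span F (range d)).mkQ (d n) = 0 := by
        simpa using Submodule.subset_span (mem_range_self n)
      simp only [φ, LinearMap.comp_apply, this, map_zero]
    rw [← h1]
    conv_rhs => rw [← Finsupp.sum_single (d n)]
    rw [Finsupp.linearCombination_apply, map_finsuppSum]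
    refine Finsupp.sum_congr fun b hb => ?_
    have hb' : b ∈ S := Or.inr (mem_iUnion.2 ⟨n, hb⟩)
    rw [if_pos hb', ← map_smul]
    simp

/-- the forbidden traces -/
def T (S : Set (B → F)) : Set (ℕ → F) :=
  ⋃ ψ ∈ S, insert (ψ ∘ Sum.inl) (range fun p : ℝ × Fin 3 => fun n => ψ (Sum.inr (p.1, p.2, n)))

lemma T_card {S : Set (B → F)} (hS : #S < 𝔠) (hQ : ∀ c ∈ S, Q c) : #(T S) < 𝔠 := by
  have hc : ∀ ψ ∈ S, (insert (ψ ∘ Sum.inl)
      (range fun p : ℝ × Fin 3 => fun n => ψ (Sum.inr (p.1, p.2, n)))).Countable := by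
    intro ψ hψ
    refine Countable.insert _ ?_
    refine ((((hQ ψ hψ).prod (countable_univ (α := Fin 3))).image
      fun p : ℝ × Fin 3 => fun n => ψ (Sum.inr (p.1, p.2, n))).insert 0).mono ?_
    rintro _ ⟨p, rfl⟩
    by_cases h : ∃ i n, ψ (Sum.inr (p.1, i, n)) ≠ 0
    · exact Or.inr ⟨p, ⟨h, trivial⟩, rfl⟩
    · push Not at h
      exact Or.inl (funext fun n => h _ n)
  refine (mk_biUnion_le _ S).trans_lt (mul_lt_of_lt aleph0_le_continuum hS ?_)
  refine lt_of_le_of_lt (ciSup_le' fun ψ => (hc ψ ψ.2).le_aleph0) aleph0_lt_continuum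

lemma exists_new {A : Set (ℕ → F)} (hA : #A < 𝔠) (s : ℕ →₀ F) (hs : s ≠ 0) :
    ∃ σ : ℕ → F, ev σ s ≠ 0 ∧ σ ∉ Submodule.span F A := by
  classical
  obtain ⟨n, hn⟩ := Finsupp.support_nonempty_iff.2 hs
  let τ : ℕ → F := Pi.single n 1
  have hτ : ev τ s ≠ 0 := by
    rw [Finsupp.linearCombination_apply, Finsupp.sum, Finset.sum_eq_single n]
    · simpa [τ] using hn
    · intro b _ hb
      simp [τ, hb]
    · intro h; exact (h hn).elim
  have hcard : #(Algebra.adjoin F (insert τ A)) < 𝔠 := by
    refine (Algebra.cardinalMk_adjoin_le F _).trans_lt ?_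
    refine max_lt (max_lt ?_ ?_) aleph0_lt_continuum
    · exact (lt_aleph0_of_finite F).trans aleph0_lt_continuum
    · exact mk_insert_le.trans_lt (add_lt_of_lt aleph0_le_continuum hA
        (one_lt_aleph0.trans aleph0_lt_continuum))
  obtain ⟨σ, hσ⟩ : ∃ σ : ℕ → F, σ ∉ Algebra.adjoin F (insert τ A) := by
    by_contra hn
    push Not at hn
    have h1 : #(Algebra.adjoin F (insert τ A)) = #(ℕ → F) :=
      mk_congr (Equiv.subtypeUnivEquiv hn)
    rw [h1] at hcard
    simp at hcard
  have hle : Submodule.span F A ≤ Subalgebra.toSubmodule (Algebra.adjoin F (insert τ A)) :=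
    Submodule.span_le.2 fun x hx => Algebra.subset_adjoin (Or.inr hx)
  by_cases h : ev σ s = 0
  · refine ⟨σ + τ, ?_, fun hm => hσ ?_⟩
    · have : ev (σ + τ) s = ev σ s + ev τ s := by
        simp [Finsupp.linearCombination_apply, Finsupp.sum, Finset.sum_add_distrib, mul_add]
      rw [this, h, zero_add]; exact hτ
    · have h2 : τ ∈ Algebra.adjoin F (insert τ A) := Algebra.subset_adjoin (Or.inl rfl)
      simpa using sub_mem (hle hm) h2
  · exact ⟨σ, h, fun hm => hσ (hle hm)⟩

/-- the tasks -/
def J : Type := {p : (ℕ → G) × (ℕ →₀ F) //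
  Disjoint (Submodule.span F (range p.1)) (LinearMap.range jj) ∧ p.2 ≠ 0}

lemma J_card : #J ≤ 𝔠 := by
  refine (mk_subtype_le _).trans ?_
  have h2 : (2 : Cardinal.{0}) ≤ 𝔠 := by
    exact_mod_cast (natCast_lt_aleph0 (n := 2)).le.trans aleph0_le_continuum
  simp [mk_real, max_eq_left h2]

/-- the pair of characters kills the subgroup with index `β` -/
def Kills (β : ℝ) (c₁ c₂ : B → F) : Prop :=
  ∀ n, c₁ (Sum.inl n) + c₂ (Sum.inr (β, 0, n)) = 0 ∧ c₁ (Sum.inr (β, 1, n)) + c₂ (Sum.inl n) = 0 ∧
    c₁ (Sum.inr (β, 2, n)) + c₁ (Sum.inl n) + c₂ (Sum.inr (β, 2, n)) = 0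

lemma span_inl {S : Set (B → F)} {ψ : B → F} (h : ψ ∈ Submodule.span F S) :
    ψ ∘ Sum.inl ∈ Submodule.span F (T S) := by
  induction h using Submodule.span_induction with
  | mem x hx => exact Submodule.subset_span (mem_biUnion hx (Or.inl rfl))
  | zero => exact zero_mem _
  | add x y _ _ h1 h2 => exact add_mem h1 h2
  | smul a x _ h => exact Submodule.smul_mem _ a h

lemma span_inr {S : Set (B → F)} {ψ : B → F} (h : ψ ∈ Submodule.span F S) (β : ℝ) (i : Fin 3) :
    (fun n => ψ (Sum.inr (β, i, n))) ∈ Submodule.span F (T S) := by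
  induction h using Submodule.span_induction with
  | mem x hx => exact Submodule.subset_span (mem_biUnion hx (Or.inr ⟨(β, i), rfl⟩))
  | zero => exact zero_mem _
  | add x y _ _ h1 h2 => exact add_mem h1 h2
  | smul a x _ h => exact Submodule.smul_mem _ a h

lemma F_cases (a : F) : a = 0 ∨ a = 1 := by revert a; decide
lemma F_add (a b : F) (h : a + b = 0) : a = b := by revert a b; decide

theorem exists_chars : ∃ c : J → B → F,
    (∀ α : J, (∀ n, ev (c α) (α.1.1 n) = 0) ∧ ev (c α ∘ Sum.inl) α.1.2 ≠ 0) ∧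
    ∀ (β : ℝ) (I : Finset J), ∀ c₁ ∈ Submodule.span F (c '' I), ∀ c₂ ∈ Submodule.span F (c '' I),
      Kills β c₁ c₂ → c₁ = 0 ∧ c₂ = 0 := by
  classical
  obtain ⟨_, _, hord⟩ := exists_ord_eq_type_lt J
  obtain ⟨c, hc⟩ := exists_rec (J := J) (fun α S c => (∀ n, ev c (α.1.1 n) = 0) ∧
      ev (c ∘ Sum.inl) α.1.2 ≠ 0 ∧ c ∘ Sum.inl ∉ Submodule.span F (T S)) Q (by
    intro α S hS hQ
    obtain ⟨σ, h1, h2⟩ := exists_new (T_card hS hQ) α.1.2 α.2.2
    obtain ⟨c, h3, rfl, h4⟩ := extend σ α.1.1 α.2.1
    exact ⟨c, h3, h4, h1, h2⟩) fun α => (mk_Iio_lt α hord).trans_le J_card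
  refine ⟨c, fun α => ⟨(hc α).2.1, (hc α).2.2.1⟩, fun β I => ?_⟩
  induction I using Finset.induction_on_max with
  | empty =>
    intro c₁ h1 c₂ h2 _
    simp only [Finset.coe_empty, image_empty, Submodule.span_empty, Submodule.mem_bot] at h1 h2
    exact ⟨h1, h2⟩
  | insert α I hα ih =>
    intro c₁ h1 c₂ h2 hk
    rw [Finset.coe_insert, image_insert_eq, Submodule.mem_span_insert] at h1 h2
    obtain ⟨a, ψ₁, h1, rfl⟩ := h1
    obtain ⟨b, ψ₂, h2, rfl⟩ := h2
    have hle : Submodule.span F (c '' I) ≤ Submodule.span F (c '' Iio α) :=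
      Submodule.span_mono (image_mono fun x hx => hα x hx)
    have hnew := (hc α).2.2.2
    rcases F_cases a with rfl | rfl <;> rcases F_cases b with rfl | rfl
    · simp only [zero_smul, zero_add] at hk ⊢
      exact ih _ h1 _ h2 hk
    · refine (hnew ?_).elim
      have : c α ∘ Sum.inl = (fun n => ψ₁ (Sum.inr (β, 1, n))) + ψ₂ ∘ Sum.inl := by
        funext n
        have := (hk n).2.1
        simp only [zero_smul, zero_add, one_smul, Pi.add_apply, Pi.zero_apply, Function.comp] at this ⊢
        apply F_add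
        linear_combination this
      rw [this]
      exact add_mem (span_inr (hle h1) _ _) (span_inl (hle h2))
    · refine (hnew ?_).elim
      have : c α ∘ Sum.inl = (fun n => ψ₂ (Sum.inr (β, 0, n))) + ψ₁ ∘ Sum.inl := by
        funext n
        have := (hk n).1
        simp only [zero_smul, zero_add, one_smul, Pi.add_apply, Pi.zero_apply, Function.comp] at this ⊢
        apply F_add
        linear_combination this
      rw [this]
      exact add_mem (span_inr (hle h2) _ _) (span_inl (hle h1))
    · refine (hnew ?_).elim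
      have : c α ∘ Sum.inl = (fun n => ψ₁ (Sum.inr (β, 2, n))) + (fun n => ψ₂ (Sum.inr (β, 2, n)))
          + ψ₁ ∘ Sum.inl := by
        funext n
        have := (hk n).2.2
        simp only [one_smul, Pi.add_apply, Function.comp] at this ⊢
        apply F_add
        have h3 : c α (Sum.inr (β, 2, n)) + c α (Sum.inr (β, 2, n)) = 0 := CharTwo.add_self_eq_zero _
        linear_combination this - h3
      rw [this]
      exact add_mem (add_mem (span_inr (hle h1) _ _) (span_inr (hle h2) _ _)) (span_inl (hle h1))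

/-- generators of the dense subgroups of the square -/
noncomputable def gen (β : ℝ) (p : Fin 3 × ℕ) : G × G :=
  ![(Finsupp.single (Sum.inl p.2) 1, Finsupp.single (Sum.inr (β, 0, p.2)) 1),
    (Finsupp.single (Sum.inr (β, 1, p.2)) 1, Finsupp.single (Sum.inl p.2) 1),
    (Finsupp.single (Sum.inr (β, 2, p.2)) 1 + Finsupp.single (Sum.inl p.2) 1,
      Finsupp.single (Sum.inr (β, 2, p.2)) 1)] p.1

/-- the map onto the dense subgroup -/
noncomputable def M (β : ℝ) : (Fin 3 × ℕ →₀ F) →ₗ[F] G × G := Finsupp.linearCombination F (gen β)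

lemma M_coord (β : ℝ) (a : Fin 3 × ℕ →₀ F) (n : ℕ) :
    (M β a).2 (Sum.inr (β, 0, n)) = a (0, n) ∧ (M β a).1 (Sum.inr (β, 1, n)) = a (1, n) ∧
      (M β a).2 (Sum.inr (β, 2, n)) = a (2, n) := by
  induction a using Finsupp.induction_linear with
  | zero => simp
  | add f g h1 h2 => simp [h1, h2]
  | single p x =>
    obtain ⟨i, m⟩ := p
    fin_cases i <;> simp [M, gen, Finsupp.single_apply]

theorem result : ∃ (G : Type) (_ : AddCommGroup G) (_ : TopologicalSpace G),
    IsTopologicalAddGroup G ∧ T2Space G ∧ DIndep (G × G) ∧ ¬ DIndep G := by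
  classical
  obtain ⟨c, hc, hK⟩ := exists_chars
  let E : G →ₗ[F] (J → F) := LinearMap.pi fun α => ev (c α)
  let _ : TopologicalSpace G := TopologicalSpace.induced E inferInstance
  have hind : IsInducing E := ⟨rfl⟩
  have hone : (Finsupp.single 0 1 : ℕ →₀ F) ≠ 0 := by simp
  have hsep : ∀ g : G, g ≠ 0 → ∃ α, ev (c α) g ≠ 0 := by
    intro g hg
    by_cases h : g ∈ LinearMap.range jj
    · obtain ⟨s, rfl⟩ := h
      refine ⟨⟨(0, s), ?_, fun h => hg (by rw [show s = 0 from h, map_zero])⟩, ?_⟩
      · have : Submodule.span F (range (0 : ℕ → G)) = ⊥ := by simp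
        rw [this]; exact disjoint_bot_left
      · rw [ev_jj]; exact (hc _).2
    · let α : J := ⟨(fun _ => g - jj (Finsupp.single 0 1), Finsupp.single 0 1), by
        rw [range_const, disjoint_comm, Submodule.disjoint_span_singleton']
        · intro h'
          exact h (by simpa using add_mem h' (LinearMap.mem_range_self jj (Finsupp.single 0 1)))
        · intro h'
          exact h (sub_eq_zero.1 h' ▸ LinearMap.mem_range_self _ _), hone⟩
      refine ⟨α, fun h0 => (hc α).2 ?_⟩
      have h1 : ev (c α) (g - jj (Finsupp.single 0 1)) = 0 := (hc α).1 0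
      rw [map_sub, h0, ev_jj, zero_sub, neg_eq_zero] at h1
      exact h1
  have hinj : Function.Injective E := by
    rw [← LinearMap.ker_eq_bot, LinearMap.ker_eq_bot']
    intro g hg
    by_contra hne
    obtain ⟨α, hα⟩ := hsep g hne
    exact hα (congrFun hg α)
  refine ⟨G, inferInstance, inferInstance, hind.topologicalAddGroup E,
    (IsEmbedding.mk hind hinj).t2Space, ⟨inferInstance, fun S hS => ?_⟩, ?_⟩
  · obtain ⟨β, hβ⟩ : ∃ β : ℝ, β ∉ ⋃ s ∈ (S : Set (G × G)),
        (Sum.elim (fun _ => (0 : ℝ)) (fun p => p.1)) '' ((s.1.support ∪ s.2.support : Finset B) : Set B) := by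
      by_contra hn
      push Not at hn
      have h1 := (mk_biUnion_le (fun s : G × G => (Sum.elim (fun _ => (0 : ℝ)) (fun p => p.1)) ''
        ((s.1.support ∪ s.2.support : Finset B) : Set B)) (S : Set (G × G))).trans_lt
        (mul_lt_of_lt aleph0_le_continuum hS (lt_of_le_of_lt (ciSup_le' fun s =>
          ((Finset.countable_toSet _).image _).le_aleph0) aleph0_lt_continuum))
      rw [eq_univ_of_forall hn] at h1
      simp [mk_real] at h1
    refine ⟨(LinearMap.range (M β)).toAddSubgroup, countable_range _, ?_, ?_⟩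
    · rintro ⟨x, y⟩
      rw [mem_closure_iff_nhds]
      intro U hU
      obtain ⟨U₁, hU₁, U₂, hU₂, hU⟩ := mem_nhds_prod_iff.1 hU
      rw [hind.nhds_eq_comap] at hU₁ hU₂
      obtain ⟨V₁, hV₁, hU₁⟩ := hU₁
      obtain ⟨V₂, hV₂, hU₂⟩ := hU₂
      rw [nhds_pi, Filter.mem_pi'] at hV₁ hV₂
      obtain ⟨I₁, t₁, ht₁, hV₁⟩ := hV₁
      obtain ⟨I₂, t₂, ht₂, hV₂⟩ := hV₂
      let I := I₁ ∪ I₂
      let R : G →ₗ[F] (I → F) := LinearMap.pi fun α : I => ev (c α.1)
      let L : G × G →ₗ[F] (I → F) × (I → F) := R.prodMap R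
      have hmem : L (x, y) ∈ (LinearMap.range (M β)).map L := by
        by_contra hn
        obtain ⟨φ, h1, h2⟩ := Submodule.exists_dual_map_eq_bot_of_notMem hn inferInstance
        have hsp : ∀ ψ : (I → F) →ₗ[F] F,
            (fun b => ψ (R (Finsupp.single b 1))) ∈ Submodule.span F (c '' I) := by
          intro ψ
          have : (fun b => ψ (R (Finsupp.single b 1))) =
              ∑ α : I, ψ (Pi.single α 1) • c α.1 := by
            funext b
            rw [LinearMap.pi_apply_eq_sum_univ ψ]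
            simp only [R, LinearMap.pi_apply, Finsupp.linearCombination_single, one_mul,
              Finset.sum_apply, Pi.smul_apply, smul_eq_mul]
            refine Finset.sum_congr rfl fun α _ => ?_
            rw [mul_comm]
            congr 2
            funext j
            simp [Pi.single_apply, eq_comm]
          rw [this]
          exact Submodule.sum_mem _ fun α _ =>
            Submodule.smul_mem _ _ (Submodule.subset_span ⟨α.1, α.2, rfl⟩)
        have hz : ∀ p, φ (L (gen β p)) = 0 := by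
          intro p
          have : φ (L (gen β p)) ∈ ((LinearMap.range (M β)).map L).map φ :=
            ⟨_, ⟨_, ⟨Finsupp.single p 1, by simp [M]⟩, rfl⟩, rfl⟩
          rw [h2] at this
          exact this
        have hsplit : ∀ u v : G, φ (L (u, v)) = (φ ∘ₗ LinearMap.inl F _ _) (R u) +
            (φ ∘ₗ LinearMap.inr F _ _) (R v) := by
          intro u v
          simp only [LinearMap.comp_apply, ← map_add]
          simp [L]
        obtain ⟨e1, e2⟩ := hK β I _ (hsp (φ ∘ₗ LinearMap.inl F _ _)) _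
          (hsp (φ ∘ₗ LinearMap.inr F _ _)) (by
            intro n
            refine ⟨?_, ?_, ?_⟩
            · exact (hsplit _ _).symm.trans (hz (0, n))
            · exact (hsplit _ _).symm.trans (hz (1, n))
            · have := (hsplit _ _).symm.trans (hz (2, n))
              simp only [map_add] at this
              exact this)
        have k : ∀ ψ : (I → F) →ₗ[F] F, (fun b => ψ (R (Finsupp.single b 1))) = 0 →
            ∀ u, ψ (R u) = 0 := by
          intro ψ hψ u
          have : ψ ∘ₗ R = 0 := Finsupp.lhom_ext' fun b => LinearMap.ext_ring (congrFun hψ b)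
          exact LinearMap.congr_fun this u
        apply h1
        rw [hsplit, k _ e1, k _ e2, add_zero]
      obtain ⟨d, hd, hLd⟩ := hmem
      refine ⟨d, hU ⟨hU₁ (hV₁ fun α hα => ?_), hU₂ (hV₂ fun α hα => ?_)⟩, hd⟩
      · have := congrFun (congrArg Prod.fst hLd) ⟨α, Finset.mem_union_left _ hα⟩
        have h3 : E d.1 α = E x α := this
        rw [h3]; exact mem_of_mem_nhds (ht₁ α)
      · have := congrFun (congrArg Prod.snd hLd) ⟨α, Finset.mem_union_right _ hα⟩
        have h3 : E d.2 α = E y α := this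
        rw [h3]; exact mem_of_mem_nhds (ht₂ α)
    · rw [eq_bot_iff]
      rintro _ ⟨hs, a, rfl⟩
      have h0 : ∀ i n, (M β a).1 (Sum.inr (β, i, n)) = 0 ∧ (M β a).2 (Sum.inr (β, i, n)) = 0 := by
        intro i n
        by_contra hn
        refine hβ (mem_biUnion hs ⟨Sum.inr (β, i, n), ?_, rfl⟩)
        simp only [Finset.coe_union, mem_union, Finset.mem_coe, Finsupp.mem_support_iff]
        tauto
      have : a = 0 := by
        ext ⟨i, n⟩
        fin_cases i
        · exact (M_coord β a n).1.symm.trans (h0 0 n).2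
        · exact (M_coord β a n).2.1.symm.trans (h0 1 n).1
        · exact (M_coord β a n).2.2.symm.trans (h0 2 n).2
      rw [this, map_zero]
      exact zero_mem _
  · rintro ⟨-, h⟩
    obtain ⟨D, h1, h2, h3⟩ := h (LinearMap.range jj).toAddSubgroup
      ((countable_range jj).le_aleph0.trans_lt aleph0_lt_continuum)
    obtain ⟨d, hd⟩ := h1.exists_eq_range ⟨0, D.zero_mem⟩
    have hspan : ∀ x ∈ Submodule.span F (range d), x ∈ D := by
      intro x hx
      induction hx using Submodule.span_induction with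
      | mem x hx => exact (hd ▸ hx : x ∈ (D : Set G))
      | zero => exact zero_mem _
      | add x y _ _ h1 h2 => exact add_mem h1 h2
      | smul a x _ h =>
        rcases F_cases a with rfl | rfl
        · rw [zero_smul]; exact zero_mem _
        · rw [one_smul]; exact h
    let α : J := ⟨(d, Finsupp.single 0 1), Submodule.disjoint_def.2 fun x hx hx' => by
      have : x ∈ (LinearMap.range jj).toAddSubgroup ⊓ D := ⟨hx', hspan x hx⟩
      rw [h3] at this
      exact this, hone⟩
    have hcl : IsClosed {g : G | E g α = 0} :=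
      isClosed_eq ((continuous_apply α).comp hind.continuous) continuous_const
    have hsub : (D : Set G) ⊆ {g : G | E g α = 0} := by
      rw [hd]
      rintro _ ⟨n, rfl⟩
      exact (hc α).1 n
    have := closure_minimal hsub hcl (h2 (jj (Finsupp.single 0 1)))
    apply (hc α).2
    rw [← ev_jj]
    exact this

end Pool.Agent.Results.MP_23f360_gt.SquareFails
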